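import Pool.Agent.U554.TD.Ser
import Pool.Agent.U554.TD.Cx
import Pool.Agent.U483.GU.HDefs

/-!
# Etale motivic cohomology in the top weight and the cubics `T(x, y, z) = 1`

Let `k` be a finite field of characteristic `p`, `Λ = ℤ[1/p]`.

* `G V r i`, for the smooth projective schemes `V` over `k`, is `H^i(V_et, ℤ^c(-r))`; for `V` of pure dimension `N` this is
  `H^{2 N + i}(V_et, ℤ(N + r))`. `TopWeights G V`: these groups are finitely generated for `r = 0`, `i ≤ 0` (the
  weight `N`, degrees at most `2 N`) and for `r ≥ 1` and all `i`.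
* `O b m X`, for the separated schemes `X` of finite type over `k`, is the Weil-etale Borel-Moore homology
  `H_{m + 2 b}^W(X, Λ(b))` of Bloch's complex of cycles of dimension `b`, with coefficients `Λ`; if `X` is smooth of pure
  dimension `n`, this is `H^{2 j - m}_W(X, Λ(j))`, `j = n - b`. `Top O X`: these groups are finitely generated for all
  `b ≤ 0` and all `m`.

Let `T` be a trilinear form in three blocks `x`, `y`, `z` of `a₁`, `a₂`, `a₃` variables.

* `bilS T` is the closed subscheme `Z_T` of `𝔸^(a₂ + a₃)` given by the `a₁` bilinear equations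
  `∂T/∂x_i (y, z) = 0`;
* `hypS T` is the smooth affine cubic hypersurface `Y_T : T(x, y, z) = 1` of dimension `a₁ + a₂ + a₃ - 1`.
-/

set_option autoImplicit false

open CategoryTheory AlgebraicGeometry MvPolynomial Pool.Agent.Y116.UV Pool.Agent.U554.TW Pool.Agent.U554.TD
  Pool.Agent.U483.GU

universe w

namespace Pool.Agent.Results.MP_c71c7a_nt.CubicsByDimension

variable {k : Type} [Field k]

/-- The module is finitely generated. -/
def FG {Λ : Type} [CommRing Λ] (M : ModuleCat.{w} Λ) : Prop := Module.Finite Λ M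

/-- The Weil-etale groups of `X` in the weights `b ≤ 0` are finitely generated. -/
def Top {Λ : Type} [CommRing Λ] (O : ℤ → ℤ → Sch k → ModuleCat.{w} Λ) (X : Sch k) : Prop :=
  ∀ b : ℤ, b ≤ 0 → ∀ m : ℤ, FG (O b m X)

/-- The groups `H^i(V_et, ℤ^c(-r))` are finitely generated for `r = 0`, `i ≤ 0`, and for `r ≥ 1` and all `i`. -/
def TopWeights (G : Sch k → ℕ → ℤ → ModuleCat.{w} ℤ) (V : Sch k) : Prop :=
  ∀ (r : ℕ) (i : ℤ), (r = 0 → i ≤ 0) → FG (G V r i)

/-- The known properties of these groups over the finite field `k`: the properties `IsAbTheory` of the Weil-etale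
Borel-Moore homology (isomorphic schemes, long exact sequences, zero in small weights, homotopy invariance,
Jouanolou's bundles, restriction from `X × 𝔾_m`) and

* `boundary`: the group of `X` in the degree `m` is a direct factor of the group of `X × 𝔾_m` in the degree
  `m + 1` (cup product with the coordinate, boundary at `0`);
* `curves`: the Weil-etale groups of the schemes of dimension at most `1` are finitely generated in the weights
  `b ≤ 0` (class field theory, Harder, Soule, Geisser; smooth projective curves and the localization sequence);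
* `alterations`: if the groups `H^i(V_et, ℤ^c(-r))` (`i ≤ 0` for `r = 0`) of all smooth projective `V` of dimension at
  most `d` are finitely generated, then so are all `O b m X`, `b ≤ 0`, for all `X` of dimension at most `d` (Geisser;
  de Jong's alterations, transfer, finiteness with finite coefficients);
* `proper`: for a smooth projective `V` the converse holds (Geisser). -/
structure IsTopTheory {Λ : Type} [CommRing Λ] (G : Sch k → ℕ → ℤ → ModuleCat.{w} ℤ)
    (O : ℤ → ℤ → Sch k → ModuleCat.{w} Λ) : Prop extends IsAbTheory O where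
  boundary : ∀ (A : Type) [CommRing A] [Algebra k A] [Algebra.FiniteType k A] (b m : ℤ),
    Nonempty (Retract (O b m (aff k A)) (O b (m + 1) (aff k (LaurentPolynomial A))))
  curves : ∀ X : Sch k, FT True X → topologicalKrullDim X.left ≤ (1 : ℕ) → Top O X
  alterations : ∀ d : ℕ,
    (∀ V : Sch k, SmoothProjective V → topologicalKrullDim V.left ≤ d → TopWeights G V) →
    ∀ X : Sch k, FT True X → topologicalKrullDim X.left ≤ d → Top O X
  proper : ∀ V : Sch k, SmoothProjective V → Top O V → TopWeights G V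

lemma weight {Λ : Type} [CommRing Λ] {O : ℤ → ℤ → Sch k → ModuleCat.{w} Λ} {a₁ a₂ a₃ : ℕ}
    {T : Fin a₁ → Fin a₂ → Fin a₃ → k} :
    (∀ b ∈ {b : ℤ | b ≤ 0}, ∀ m : ℤ, FG (O (b + a₁ - 1) m (hypS T))) ↔
      ∀ j : ℕ, a₂ + a₃ ≤ j → ∀ m : ℤ, FG (O (a₁ + a₂ + a₃ - 1 - j) m (hypS T)) := by
  constructor
  · intro h j hj m
    have h1 := h (a₂ + a₃ - j) (show (a₂ + a₃ - j : ℤ) ≤ 0 by omega) m
    rwa [show (a₂ + a₃ - j + a₁ - 1 : ℤ) = a₁ + a₂ + a₃ - 1 - j from by ring] at h1
  · intro h b hb m
    have hb' : b ≤ 0 := hb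
    have h1 := h (a₂ + a₃ - b).toNat (by omega) m
    rwa [show (a₁ + a₂ + a₃ - 1 - ((a₂ + a₃ - b).toNat : ℤ) : ℤ) = b + a₁ - 1 from by omega] at h1

/-- **Top weights and cubics.** Let `k` be a finite field of characteristic `p`, `Λ = ℤ[1/p]`.

(A) If one of the three blocks of `T` has at most `3` variables (the other two are arbitrary), then the Weil-etale
Borel-Moore homology groups of `Z_T` in the weights `b ≤ 0`, and the groups `H^i_W(Y_T, Λ(j))`, `j ≥ a₂ + a₃`, are
finitely generated for all `i`.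

(B) Let `d ≥ 1` and `s` be any numbers. The following are equivalent (and true for `d = 1`):

1. `d = 1`, or for all smooth projective `V` of dimension `N ≤ d` the groups `H^i(V_et, ℤ(N))`, `i ≤ 2 N`, and
   `H^i(V_et, ℤ(j))`, `j > N`, are finitely generated;
2. the Weil-etale Borel-Moore homology groups in the weights `b ≤ 0` are finitely generated for all separated schemes
   of finite type of dimension at most `d`;
3. the same for all `Z_T` with a block of at most `d + 2` variables, and for all closed subschemes of affine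
   spaces given by equations with `t_1, …, t_c` terms, `∑ max(t_i - 2, 0) ≤ d`;
4. `H^i_W(Y_T, Λ(j))` is finitely generated for all `i`, all `j ≥ a₂ + a₃` and all `T` with a block of at
   most `d + 2` variables;
5. the same for all `T` with exactly `d + 2` variables `y` and at least `s` variables `z`. -/
theorem result [Finite k] (p : ℕ) [CharP k p] {Λ : Type} [CommRing Λ]
    [IsLocalization.Away (p : ℤ) Λ] (G : Sch k → ℕ → ℤ → ModuleCat.{w} ℤ)
    (O : ℤ → ℤ → Sch k → ModuleCat.{w} Λ) (hO : IsTopTheory G O) :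
    (∀ (a₁ a₂ a₃ : ℕ) (T : Fin a₁ → Fin a₂ → Fin a₃ → k), OneSmall 3 a₁ a₂ a₃ →
      Top O (bilS T) ∧
      ∀ j : ℕ, a₂ + a₃ ≤ j → ∀ m : ℤ, FG (O (a₁ + a₂ + a₃ - 1 - j) m (hypS T))) ∧
    ∀ d : ℕ, 1 ≤ d → ∀ s : ℕ, List.TFAE [
      d = 1 ∨ ∀ V : Sch k, SmoothProjective V → topologicalKrullDim V.left ≤ d → TopWeights G V,
      ∀ X : Sch k, FT True X → topologicalKrullDim X.left ≤ d → Top O X,
      (∀ (a₁ a₂ a₃ : ℕ) (T : Fin a₁ → Fin a₂ → Fin a₃ → k), OneSmall (d + 2) a₁ a₂ a₃ →
        Top O (bilS T)) ∧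
      ∀ (n : ℕ) (G : Finset (MvPolynomial (Fin n) k)), ∑ g ∈ G, (g.support.card - 2) ≤ d →
        Top O (aff k (MvPolynomial (Fin n) k ⧸ Ideal.span (G : Set (MvPolynomial (Fin n) k)))),
      ∀ (a₁ a₂ a₃ : ℕ) (T : Fin a₁ → Fin a₂ → Fin a₃ → k), OneSmall (d + 2) a₁ a₂ a₃ →
        ∀ j : ℕ, a₂ + a₃ ≤ j → ∀ m : ℤ, FG (O (a₁ + a₂ + a₃ - 1 - j) m (hypS T)),
      ∀ (a₁ a₃ : ℕ) (T : Fin a₁ → Fin (d + 2) → Fin a₃ → k), s ≤ a₃ →
        ∀ j : ℕ, d + 2 + a₃ ≤ j → ∀ m : ℤ, FG (O (a₁ + (d + 2) + a₃ - 1 - j) m (hypS T))] := by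
  have hN : IsNoetherianRing Λ := IsLocalization.isNoetherianRing (Submonoid.powers (p : ℤ)) Λ inferInstance
  have hP : IsSerre (FG.{w} (Λ := Λ)) := serre_fg
  have hW : ∀ b ∈ {b : ℤ | b ≤ 0}, ∀ b' ≤ b, b' ∈ {b : ℤ | b ≤ 0} :=
    fun b hb b' hb' => le_trans hb' hb
  have hpt : AllIn FG {b : ℤ | b ≤ 0} O (aff k k) := by
    refine hO.curves _ (ft_aff True) ?_
    rw [Pool.Agent.Z125.UN.topDim_aff, ringKrullDim_eq_zero_of_field]
    exact_mod_cast (by omega : (0 : ℕ) ≤ 1)
  have hS := allIn_sided hP hO.toIsAbTheory hW hpt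
  have main := fun (d : ℕ) (hd : 1 ≤ d) (s : ℤ) =>
    serre_tfae (k := k) hP hO.toIsAbTheory hW hpt hO.boundary d hd s
  refine ⟨fun a₁ a₂ a₃ T ha => ?_, fun d hd s => ?_⟩
  · have h1 : ∀ X : Sch k, FT True X → topologicalKrullDim X.left ≤ (1 : ℕ) →
        AllIn FG {b : ℤ | b ≤ 0} O X := hO.curves
    have h2 := allIn_bil hP hO.toIsAbTheory hW hpt 1 h1 T ha
    exact ⟨h2, weight.mp fun b hb => (hyp_iff_bil hP hO.toIsAbTheory hW hpt T b hb).mp (h2 b hb)⟩
  · have h := main d hd s
    tfae_have 1 → 2 := by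
      rintro (rfl | h1)
      · exact hO.curves
      · exact hO.alterations d h1
    tfae_have 2 → 1 := fun h1 => Or.inr fun V hV hdim => hO.proper V hV (h1 V hV.ft hdim)
    tfae_have 2 → 3 := by
      intro h1
      refine ⟨fun a₁ a₂ a₃ T ha => allIn_bil hP hO.toIsAbTheory hW hpt d h1 T ha, fun n G hG => ?_⟩
      refine complexity hS d (fun A _ _ _ hA => ?_) G hG
      refine h1 _ (ft_aff True) ?_
      rw [Pool.Agent.Z125.UN.topDim_aff]
      exact hA
    tfae_have 3 → 4 := fun h1 a₁ a₂ a₃ T ha => weight.mp fun b hb =>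
      (hyp_iff_bil hP hO.toIsAbTheory hW hpt T b hb).mp (h1.1 a₁ a₂ a₃ T ha b hb)
    tfae_have 4 → 5 := by
      intro h1 a₁ a₃ T _ j hj m
      have h2 := h1 a₁ (d + 2) a₃ T (Or.inr (Or.inl le_rfl)) j hj m
      push_cast at h2
      exact h2
    tfae_have 5 → 2 := by
      intro h1
      refine (h.out 3 0).mp fun a₁ a₃ T ha => weight.mpr fun j hj m => ?_
      have h2 := h1 a₁ a₃ T (by exact_mod_cast ha) j hj m
      push_cast
      exact h2
    tfae_finish

end Pool.Agent.Results.MP_c71c7a_nt.CubicsByDimension
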