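import Pool.Agent.U998.SV.Main
import Pool.Agent.U231.FR.Va

/-!
# Finite generation in the top weight for products of arbitrary schemes with varieties of Fermat type

Let `κ` be a finite field with `q` elements, of characteristic `p`, and `𝒱` a class of smooth projective
varieties over `κ`, closed under products, with Chow groups `A` with rational coefficients and a Weil
cohomology theory `H` (framework of the starting library: `TheoryData`, `IsChow`, `IsWeil`). Let `X i` be
varieties in `𝒱` **of Fermat type** of different prime degrees `N i` and of lengths at most `s i`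
(`IsFermatType`, helper231): the cohomology of `X i` is generated by the classes of cycles and a subspace,
stable under the Frobenius, on which each eigenvalue of the Frobenius is, up to a root of unity and a
power of `q`, a product `∏_{a ∈ A} g(θ ^ a)` of at most `s i` Gauss sums over `κ`, where `θ` is a
multiplicative character of `κ` of order `N i`, and where the multiset `A + p A + ⋯ + p ^ (f - 1) A`, `f` the
order of `p` modulo `N i`, is not symmetric, i.e. not invariant under `a ↦ -a`. (Theorem of Weil: the diagonal
hypersurfaces of degree `N i` and dimension `n`, and their products; `s = n + 2`.) Let `Z` be **any** variety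
in `𝒱` and `U` **any** proper, regular and connected scheme over `κ`, of dimension `u` (for example a point).

For `X` in `𝒱` and an integer `j` let `T j` be the sum of the groups `T^n(X) = CH^n(X × U, j) ⊗ ℚ`. On `T j` act
the correspondences between the varieties in `𝒱`, the Frobenius endomorphism `φ j` of `U` commutes with the
correspondences, and the Frobenius endomorphism of `X × U` is `q ^ n` on `T^n(X)` (`IsCycleTheory`); only such
properties are used. Let `χ` be a rational polynomial, `χ (0) ≠ 0`, with `χ (φ j) = 0` (for `U` a point
`χ = x - 1`; for general `U` it exists if the motive of `U` is finite-dimensional), let `β` run through the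
products of an eigenvalue of Frobenius on `H(Z)` and of a complex root of `χ`, and suppose that the `β` are
algebraic (Deligne) and that for all `β` and all `i` there is an `m > 0` such that (`IsSmallBase`)

* the field `F = ℚ(β ^ m) ∩ ℚ(ζ_{N i})` is real (for instance `N i` is odd and unramified in `ℚ(β ^ m)`);
* or `N i > s i f i [F : ℚ] + 1`; or `N i = 2`.

So for given `Z` and `U` all prime numbers `N i` with finitely many exceptions are admitted, and then there is
no condition on the dimensions and the numbers of factors of the `X i`. Suppose finally that homologically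
trivial self-correspondences of degree zero of the products are nilpotent (known for example if `Z` and the
`X i` are dominated by products of curves; Kimura, Shioda and Katsura).

For `X` in `𝒱` and `d = dim (X × U)` let `G X m = H^m((X × U)_et, ℤ(d))` and `B X m =
H^m((X × U)_et, ℚ/ℤ(d))`; `IsTopWeight` lists the known properties of these groups which are used: the
exact sequence of the coefficients, the finiteness of `B X m` for `m < 2 d` (Deligne, Gabber, Milne), and the finite
generation of `G X (2 d)` (unramified class field theory).

**Theorem.** Let `V` be the product of `Z` and of finitely many pairwise different `X i`, `d = dim (V × U)`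
and `z = dim (Z × U)`. The answer to the question Q1 for the scheme `V × U` (finite generation of
`H^m((V × U)_et, ℤ(d))` for all `0 ≤ m ≤ 2 d`) is yes **if and only if** `CH^c(Z × U, j) ⊗ ℚ = 0` **for all**
`1 ≤ j ≤ 2 d` **and** `z ≤ c ≤ d`. More precisely, in each single degree `m < 2 d` the group `H^m((V × U)_et, ℤ(d))`
is finitely generated if and only if it is finite, and if and only if `CH^c(Z × U, 2 d - m) ⊗ ℚ = 0` for
`z ≤ c ≤ d`.

No case of the Tate conjecture is assumed for `Z` and `U`. If Parshin's conjecture is known for `Z × U`, for example
if it is a point or a curve (Harder), then the answer is yes for all these `V × U`.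

The Künneth formula for `T j` is the one of helper231 (`U231/FR`, with the library of helper876, `N876/CG`); the
passage to the groups with coefficients `ℤ(d)` is `U998/SV`.
-/

set_option autoImplicit false

open Polynomial CategoryTheory AlgebraicGeometry

namespace Pool.Agent.Results.MP_c71c7a_nt.FermatFactors

open Pool.Agent.H914 Pool.Agent.H914.VarClass Pool.Agent.H914.VarClass.Obj Pool.Agent.W492.BB
  Pool.Agent.W484.CK Pool.Agent.U231.FF Pool.Agent.U231.FR.Base Pool.Agent.U231.FR.Va
  Pool.Agent.U998.SV

/-- **Q1 for products of arbitrary schemes with varieties of Fermat type of different prime degrees.** -/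
theorem result (p : ℕ) [Fact p.Prime] (κ : Type) [Field κ] [Fintype κ] [CharP κ p] {ι : Type}
    (N s : ι → ℕ) {𝒱 : VarClass κ} (A : TheoryData.{0, 0, 0} 𝒱 ℚ) [IsChow A] {K : Type} [Field K]
    [IsAlgClosed K] [CharZero K] (H : WeilTheoryData.{0, 0, 0} A K) [IsWeil H] (τ : K →+* ℂ)
    (F : ∀ X : 𝒱.Obj, X ⟶ X) (X : ι → 𝒱.Obj) (Z : 𝒱.Obj) (χ : ℚ[X])
    (h : IsFermatSystem p N s H τ F X Z χ) (hnil : ∀ L, Nilpotence H (productOf X Z L))
    (T : ℤ → MotivicData A) (φ : ∀ j X, (T j).M X →ₗ[ℚ] (T j).M X)
    (hT : ∀ j, IsCycleTheory (T j) (φ j) F (Fintype.card κ)) (hT0 : ∀ j, IsRoot (T j) (φ j) χ)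
    (u : ℕ) (G B : 𝒱.Obj → ℤ → Type)
    [∀ X m, AddCommGroup (G X m)] [∀ X m, AddCommGroup (B X m)] (hG : IsTopWeight T u G B)
    (L : List ι) (hL : L.Nodup) : 
    ((∀ m : ℤ, 0 ≤ m → m ≤ 2 * dimOf X Z u L → AddGroup.FG (G (productOf X Z L) m)) ↔
      ∀ j : ℤ, 1 ≤ j → j ≤ 2 * dimOf X Z u L →
        ∀ c : ℤ, dimOf X Z u [] ≤ c → c ≤ dimOf X Z u L → Vanishes (T j) Z c) ∧
    ∀ m : ℤ, m < 2 * dimOf X Z u L →
      ((AddGroup.FG (G (productOf X Z L) m) ↔ ∀ c : ℤ, dimOf X Z u [] ≤ c → c ≤ dimOf X Z u L →
        Vanishes (T (2 * dimOf X Z u L - m)) Z c) ∧
      (AddGroup.FG (G (productOf X Z L) m) ↔ Finite (G (productOf X Z L) m))) := by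
  have hc := conclusions_of hG (fun j L hL => main p κ N s A H τ F X Z χ h hnil (T j) (φ j) (hT j)
    (hT0 j) L hL) L hL
  exact ⟨hc.range, hc.degree⟩

end Pool.Agent.Results.MP_c71c7a_nt.FermatFactors
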