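import Pool.Agent.U998.ZC.Main

/-!
# Finite generation of top-weight étale motivic cohomology in characteristic `p`, dimension by dimension

For a proper regular connected scheme `X` over the field with `p` elements, of dimension `d`, let
`H^m = H^m(X_et, ℤ(d))`.  The question (Q1) is whether `H^m` is finitely generated for `0 ≤ m ≤ 2d`.  The theorem:

* for `m < 2d`, `H^m` is finitely generated if and only if it is finite, and if and only if the rational higher Chow group
  of zero-cycles `CH_0(X, 2d - m) ⊗ ℚ` is zero (known);
* for every `n` the following are equivalent: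
  (1) Q1 for all these `X` of dimension at most `n`;
  (2) `CH_0(X, j) ⊗ ℚ = 0` for all these `X` of dimension at most `n` and `1 ≤ j ≤ 2n`;
  (3) for all separated schemes `Y` of finite type over `F_p` of dimension at most `n` (arbitrary singularities, not proper) the
      comparison maps `CH_0(Y, j) ⊗ ℚ → H_j(CH_0(W(Y)) ⊗ ℚ)` with the weight homology (`W(Y)` is the weight complex of Gillet
      and Soulé) are isomorphisms for `j ≤ 2n` and surjective for `j = 2n + 1`;
  (4) the same for the affine smooth integral realization spaces of line arrangements (matroids of rank 3) over `F_p`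
      of dimension at most `n`;
  (5) the same for the affine smooth integral schemes over `F_p` given by unit equations `x_i + y_i = 1` and
      binomial equations between the units `x_i, y_i`, of dimension at most `n`;
* Q1 (that is, for all `n`) for the schemes over `F_p` implies finite generation of `H^m` for all `m ≤ 2d` and all `X` over
  `F_p`, so that it contains the Beilinson-Soulé vanishing for negative `m`;
* Q1 for the schemes over `F_p` is equivalent to isomorphisms for all comparison maps of the affine schemes over `F_p`
  given by systems of equations each of which is a sum of at most three monomials `x_i y_j`.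

The conditions (3)-(5) are in the range of degrees of the question; for this range the comparison of (3) is closed under
closed-open decompositions (the five lemma, with the surjectivity in the last degree), and no homotopy invariance is used.
The reduction of such properties to realization spaces and unit equations, with a bound for the dimension, is the one of
`Pool.Agent.U586.MU`; the Noetherian induction with alterations is the one of `Pool.Agent.U213`.
-/

set_option autoImplicit false

open CategoryTheory AlgebraicGeometry MvPolynomial Pool.Agent.Y116.UV Pool.Agent.U586.MU Pool.Agent.U998.ZC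

universe v

namespace Pool.Agent.Results.MP_c71c7a_nt.RealizationSpaces

/-- `X` is the realization space over `F_p` of a configuration type: the scheme of the configurations of
points `e ∈ E` of the projective plane, in the coordinates given by a projective frame, for which exactly
the triples in a given set are collinear. -/
def IsRealizationSpace {p : ℕ} (X : Sch (ZMod p)) : Prop :=
  ∃ (E : Type) (_ : Fintype E) (π : Cfg E), X = π.space (ZMod p)

/-- `X` is the scheme over `F_p` of the families of units `x_i, y_i`, `i ∈ I`, with `x_i + y_i = 1` which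
satisfy given signed binomial equations `∏ u_v ^ p_v = ± ∏ u_v ^ q_v`. -/
def IsUnitScheme {p : ℕ} (X : Sch (ZMod p)) : Prop :=
  ∃ (I : Type) (_ : Fintype I) (S : Set (SBin (I ⊕ I))), X = uspace (ZMod p) S

/-- `X` has dimension at most `n`, and it is empty, or integral and smooth over `F_p`. -/
def Nice {p : ℕ} (n : ℕ) (X : Sch (ZMod p)) : Prop :=
  topologicalKrullDim X.left ≤ n ∧ (IsEmpty X.left ∨ (IsIntegral X.left ∧ Smooth X.hom))

section
variable {p : ℕ} [Fact p.Prime] (W : Theory.{v} (ZMod p))

/-- Q1 for the proper regular connected schemes over `F_p` of dimension at most `n`. -/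
def Question (n : ℕ) : Prop :=
  ∀ (X : Sch (ZMod p)) (d : ℕ), PR X d → d ≤ n → ∀ m : ℤ, 0 ≤ m → m ≤ 2 * d → AddGroup.FG (W.H m X)

/-- All comparison maps are isomorphisms for the affine schemes over `F_p` given by systems of equations
each of which is a sum of at most three monomials `x_i y_j`. -/
def ForSystems : Prop :=
  ∀ (a b c : ℕ) (E : Fin c → Finset (Fin a × Fin b)), (∀ l, (E l).card ≤ 3) →
    All W (aff (ZMod p) (MvPolynomial (Fin a ⊕ Fin b) (ZMod p) ⧸ Ideal.span (Set.range fun l =>
      ∑ e ∈ E l, (X (Sum.inl e.1) * X (Sum.inr e.2) : MvPolynomial (Fin a ⊕ Fin b) (ZMod p)))))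

/-- **Theorem.** Let `p` be a prime number and `W` the theory of zero-cycles over `F_p` (`Theory`: the groups and their known
properties which are used).
1. For a proper regular connected scheme `X` over `F_p` of dimension `d` and `m < 2d`, `H^m(X_et, ℤ(d))` is finitely
generated if and only if it is finite, and if and only if `CH_0(X, 2d - m) ⊗ ℚ = 0`.
2. For every `n`, Q1 for all these `X` of dimension at most `n` is equivalent to `CH_0(X, j) ⊗ ℚ = 0` for all of them and
`1 ≤ j ≤ 2n`; to the property `Upto W (2 n + 1)` (comparison maps with weight homology bijective for `j ≤ 2n` and surjective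
for `j = 2n + 1`) for all separated schemes of finite type of dimension at most `n`; to this property for the
realization spaces of dimension at most `n` which are empty or integral and smooth; and to this property for such unit schemes.
3. If Q1 is true for all `X` over `F_p`, then `H^m(X_et, ℤ(d))` is finitely generated for all `m ≤ 2d`, including `m < 0`.
4. Q1 for all `X` over `F_p` is equivalent to isomorphisms for all comparison maps of the systems with at most three terms. -/
theorem result (p : ℕ) [Fact p.Prime] (W : Theory.{v} (ZMod p)) :
    (∀ (X : Sch (ZMod p)) (d : ℕ), PR X d → ∀ m : ℤ, m < 2 * d →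
      (AddGroup.FG (W.H m X) ↔ Subsingleton (W.C (2 * d - m) X).A) ∧
      (AddGroup.FG (W.H m X) ↔ Finite (W.H m X))) ∧
    (∀ n : ℕ, List.TFAE [
      Question W n,
      ∀ (X : Sch (ZMod p)) (d : ℕ), PR X d → d ≤ n → ∀ j : ℤ, 1 ≤ j → j ≤ 2 * n → Subsingleton (W.C j X).A,
      ∀ X : Sch (ZMod p), FT True X → topologicalKrullDim X.left ≤ n → Upto W (2 * n + 1) X,
      ∀ X : Sch (ZMod p), IsRealizationSpace X → Nice n X → Upto W (2 * n + 1) X,
      ∀ X : Sch (ZMod p), IsUnitScheme X → Nice n X → Upto W (2 * n + 1) X]) ∧
    ((∀ n : ℕ, Question W n) ↔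
      ∀ (X : Sch (ZMod p)) (d : ℕ), PR X d → ∀ m : ℤ, m ≤ 2 * d → AddGroup.FG (W.H m X)) ∧
    ((∀ n : ℕ, Question W n) ↔ ForSystems W) := by
  have hall : (∀ n : ℕ, Question W n) ↔ ∀ n J, Van W J n := by
    constructor
    · intro h n J X d hX hd j h1 _
      -- enlarge the dimension
      obtain ⟨e, he⟩ : ∃ e : ℕ, j ≤ 2 * ((d + e : ℕ) : ℤ) := ⟨j.toNat, by omega⟩
      have h3 := (range_iff W (d + e)).2 (h (d + e))
      exact h3 X d hX (by omega) j h1 (by omega)
    · intro h n
      exact (range_iff W n).1 (h n _)
  refine ⟨fun X d hX m hm => one_tfae W hX hm, fun n => ?_, ?_, ?_⟩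
  · have hK : Hered True fun X : Sch (ZMod p) => topologicalKrullDim X.left ≤ (n : WithBot ℕ∞) := hered_dim True n
    obtain ⟨h1, h2⟩ := real_iff W (2 * n + 1) hK (generic_perfect (ZMod p))
    tfae_have 1 ↔ 2 := by
      refine (range_iff W n).symm.trans ⟨fun h X d hX hd j h1 h2 => h X d hX hd j h1 (by omega),
        fun h X d hX hd j h1 h2 => h X d hX hd j h1 (by omega)⟩
    tfae_have 1 ↔ 3 := (range_iff W n).symm.trans (van_iff_upto W (by omega) n)
    tfae_have 3 → 4 := by
      rintro h X ⟨E, _, π, rfl⟩ ⟨hKX, -⟩
      exact h _ (ft_aff True) hKX
    tfae_have 3 → 5 := by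
      rintro h X ⟨I, _, S, rfl⟩ ⟨hKX, -⟩
      exact h _ (ft_aff True) hKX
    tfae_have 4 → 3 := fun h X hX hKX =>
      h1.mpr (fun E _ π hKπ hg => h _ ⟨E, _, π, rfl⟩ ⟨hKπ, hg⟩) X hX hKX
    tfae_have 5 → 3 := fun h X hX hKX =>
      h2.mpr (fun I _ S hKπ hg => h _ ⟨I, _, S, rfl⟩ ⟨hKπ, hg⟩) X hX hKX
    tfae_finish
  · rw [hall]
    constructor
    · intro h X d hX m hm
      exact (van_iff_fg W (2 * d - m + 1) d).1 (h d _) X d hX le_rfl m (by omega) hm
    · intro h n J
      exact (van_iff_fg W J n).2 fun X d hX _ m _ hm => h X d hX m hm
  · rw [hall]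
    exact all_iff_three W

end

end Pool.Agent.Results.MP_c71c7a_nt.RealizationSpaces
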