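import Pool.Agent.U998.SV.Main

/-!
# Finite generation in the top weight for products of arbitrary schemes with varieties with separated
# slope fields

Let `𝒱` be a class of smooth projective varieties over the field `κ` with `q = p ^ m` elements, closed under
products, with Chow groups `A` with rational coefficients and a Weil cohomology theory `H` with an
algebraically closed field `C` of coefficients (framework of the starting library: `TheoryData`, `IsChow`,
`IsWeil`), and fix a place `ι` above `p` of the field `ℚ̄` of algebraic numbers. A *slope field* of an
algebraic number `ν` is a subfield `L` of `ℚ̄` such that the automorphisms of `ℚ̄` over `L` do not change the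
absolute values at `ι` of the conjugates of `ν` (`HasSlopesIn`); a slope field of a variety is a slope field of
its Frobenius eigenvalues. (For example the reflex field of the CM type given by the slopes, for an
ordinary abelian variety and all its powers.)

Let `X i`, `i` in a linearly ordered set, be varieties such that the cohomology of `X i` is generated
by the classes of cycles and a Frobenius-stable subspace on which all eigenvalues are Weil numbers with
slope field `L i`, and not supersingular (`IsGoodAlgebra`: **this is the Tate conjecture for `X i` with
semisimplicity**, if there are no supersingular eigenvalues in odd degrees). Let `Z` be **any** variety in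
`𝒱` with a slope field `M`. We suppose that the fields are *separated* (`AreSeparated`, `IsSeparatedFamily`):
each `L i` contains a totally real field `E i`, which may depend on `i`, such that
* `L i` is normal over `E i`, and `L i ∩ E i L j` is totally real, for `i < j`;
* `L i ∩ E i M` is totally real.

Every CM field `L i` is normal over its largest totally real subfield `L i⁺`. So for CM fields `L i` it is
enough that `L i` is not contained in `L i⁺ L j` for `i < j`, and not in `L i⁺ M`.

Let `U` be **any** proper, regular and connected scheme over `κ`, of dimension `u` (for example a point). For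
`X` in `𝒱` and an integer `j` let `T j` be the sum of the groups `T^n(X) = CH^n(X × U, j) ⊗ ℚ`. On `T j` act
the correspondences between the varieties in `𝒱`, the Frobenius endomorphism `φ j` of `U` commutes with the
correspondences, and the Frobenius endomorphism of `X × U` is `q ^ n` on `T^n(X)` (`IsCycleTheory`); only such
properties are used. Let `χ` be a rational polynomial, `χ (0) ≠ 0`, with `χ (φ j) = 0`, whose roots have the
slope field `M` (for `U` a point `χ = x - 1`; for general `U` it exists if the motive of `U` is
finite-dimensional, and its roots are Frobenius eigenvalues of `U`). Suppose that homologically trivial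
self-correspondences of degree zero of the products `V` are nilpotent (known for example if `Z` and the `X i`
are dominated by products of curves; Kimura, O'Sullivan).

For `X` in `𝒱` and `d = dim (X × U)` let `G X m = H^m((X × U)_et, ℤ(d))` and `B X m =
H^m((X × U)_et, ℚ/ℤ(d))`. In `IsTopWeight` are the known properties of these groups which are used:
* the exact sequence of the coefficients `ℤ(d) → ℚ(d) → ℚ/ℤ(d)`, with `CH^d(X × U, 2 d - m) ⊗ ℚ` as the
  group of degree `m` with coefficients `ℚ(d)`;
* `B X m` is finite for `m < 2 d` (Deligne, Gabber, Milne);
* `G X (2 d)` is finitely generated (unramified class field theory).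

**Theorem.** Let `V` be the product of `Z` and of finitely many pairwise different `X i`; put
`d = dim (V × U)` (`dimOf X Z u l`) and `z = dim (Z × U)` (`dimOf X Z u []`).
* (`degree`) For each integer `m < 2 d` the group `H^m((V × U)_et, ℤ(d))` **is finitely generated if and
  only if** `CH^c(Z × U, 2 d - m) ⊗ ℚ = 0` **for** `z ≤ c ≤ d`. (It is then finite.)
* (`range`) The answer to the question Q1 for `V × U` is yes if and only if `CH^c(Z × U, j) ⊗ ℚ = 0` for all
  `1 ≤ j ≤ 2 d` and `z ≤ c ≤ d`.
* (`all`) The groups `H^m((V × U)_et, ℤ(d))` are finitely generated for all integers `m ≤ 2 d` if and only if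
  `CH^c(Z × U, j) ⊗ ℚ = 0` for all `j ≥ 1` and `z ≤ c ≤ d`.
* (`compare`) So the question does not depend on the varieties `X i`, only on `Z × U` and `d`: if `V'` is
  another such product, `dim V' ≤ dim V` and `2 d' - m' = 2 d - m > 0`, then the finite generation of
  `H^m((V × U)_et, ℤ(d))` implies that of `H^m'((V' × U)_et, ℤ(d'))`. (Here `X i` can be a projective
  space, so `V'` can be the product of `Z` and of a projective space.)

No case of the Tate conjecture is assumed for `Z` and `U`. Only the groups `CH^c(Z × U, j)` with `c ≥ z` occur:
the zero-cycles on `Z × U` (`c = z`), and the groups of negative dimension (`c > z`). If Parshin's conjecture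
is known for `Z × U`, for example if it is a point or a curve (Harder), then all `H^m((V × U)_et, ℤ(d))`,
`m ≤ 2 d`, are finitely generated.

For example, `X i` can be an ordinary abelian variety with complex multiplication by an arbitrary CM
field, or a power of it, for which the Tate conjecture is known; or an ordinary K3 surface, `L i` is then
the CM field generated by the eigenvalue of slope zero, of degree `22 - rank NS`; or a product of varieties
of Fermat type of degree `N_i` for which the Tate conjecture is known, `L i` is then the decomposition field
of `p` in the field of the `N_i`-th roots of unity.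

The Künneth formula for `T j` is proved with the theorem on separated slope fields of helper173
(`U173/OP/Star`, `U173/SF/Sys`), by projectors in the ring generated by the Frobenius and the algebraic
cycles (helper876, `N876/CG`; definitions and bridges of helper231, `U231/FR`).
-/

set_option autoImplicit false

open Polynomial CategoryTheory AlgebraicGeometry

namespace Pool.Agent.Results.MP_c71c7a_nt.SeparatedSlopeFields

open Pool.Agent.H914 Pool.Agent.H914.VarClass Pool.Agent.H914.VarClass.Obj Pool.Agent.W492.BB
  Pool.Agent.W484.CK Pool.Agent.U173.PS Pool.Agent.U173.SF Pool.Agent.U231.FR.Base Pool.Agent.U998.SV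

/-- **Finite generation in the top weight for products of arbitrary schemes with varieties with
separated slope fields.** -/
theorem result {κ : Type} [Field κ] {𝒱 : VarClass κ} (A : TheoryData.{0, 0, 0} 𝒱 ℚ) [IsChow A]
    {C : Type} [Field C] [IsAlgClosed C] [CharZero C] (H : WeilTheoryData.{0, 0, 0} A C) [IsWeil H]
    {I : Type} [LinearOrder I] (p m : ℕ) [Fact p.Prime] (ι : AlgebraicClosure ℚ →+* PadicAlgCl p)
    (E : I → IntermediateField ℚ (AlgebraicClosure ℚ))
    (M : IntermediateField ℚ (AlgebraicClosure ℚ))
    (L : I → IntermediateField ℚ (AlgebraicClosure ℚ)) (F : ∀ X : 𝒱.Obj, X ⟶ X) (X : I → 𝒱.Obj)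
    (Z : 𝒱.Obj) (h : IsSeparatedFamily p m ι E M L H F X Z) (χ : ℚ[X]) (hχ0 : χ.coeff 0 ≠ 0)
    (hχ : ∀ ρ : C, aeval ρ χ = 0 → HasSlopesIn p ι M ρ)
    (hnil : ∀ l : List I, Nilpotence H (productOf X Z l)) (T : ℤ → MotivicData A)
    (φ : ∀ j X, (T j).M X →ₗ[ℚ] (T j).M X) (hT : ∀ j, IsCycleTheory (T j) (φ j) F (p ^ m))
    (hT0 : ∀ j, IsRoot (T j) (φ j) χ) (u : ℕ) (G B : 𝒱.Obj → ℤ → Type)
    [∀ X m, AddCommGroup (G X m)] [∀ X m, AddCommGroup (B X m)] (hG : IsTopWeight T u G B)
    (l : List I) (hl : l.Nodup) : TopConclusions X Z T u G l :=
  conclusions_of hG (fun j l hl => va_main h hχ0 hχ hnil (T j) (φ j) (hT j) (hT0 j) l hl) l hl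

end Pool.Agent.Results.MP_c71c7a_nt.SeparatedSlopeFields
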